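import Pool.Agent.H174.GP.StH
import Pool.Agent.H174.GP.StC

/-!
# Project GP: comparison of the integrated walk with the process `Ch`
-/

set_option autoImplicit false

open MeasureTheory ProbabilityTheory Finset Filter Topology

namespace Pool.Agent.H154.GP174

open Pool.Agent.H174.GP

theorem Hw_cont (x : ℕ) : Continuous fun z : ℕ → ℝ => Hw z x := by
  unfold Hw S
  exact continuous_finsetSum _ fun u _ =>
    (continuous_finsetSum _ fun i _ => continuous_apply i).div_const _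

theorem Hw_dep {m x : ℕ} (hx : x ≤ m) {z z' : ℕ → ℝ} (h : ∀ j ∈ Finset.Icc 1 m, z j = z' j) :
    Hw z x = Hw z' x := by
  unfold Hw S
  refine Finset.sum_congr rfl fun u hu => ?_
  have hu' := Finset.mem_Icc.mp hu
  rw [Finset.sum_congr rfl fun i hi => h i (Finset.mem_Icc.mpr ⟨(Finset.mem_Icc.mp hi).1,
    (Finset.mem_Icc.mp hi).2.trans (hu'.2.trans hx)⟩)]

theorem F_closed (X : Finset ℕ) (t : ℕ → ℝ) :
    IsClosed {z : ℕ → ℝ | ∀ x ∈ X, t x ≤ Real.sqrt 2 * Hw z x} := by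
  have h : {z : ℕ → ℝ | ∀ x ∈ X, t x ≤ Real.sqrt 2 * Hw z x} =
      ⋂ x ∈ X, {z : ℕ → ℝ | t x ≤ Real.sqrt 2 * Hw z x} := by
    ext z
    simp
  rw [h]
  exact isClosed_biInter fun x _ => isClosed_le continuous_const (continuous_const.mul (Hw_cont x))

theorem F_dep {m : ℕ} {X : Finset ℕ} (hX : X ⊆ Finset.Icc 1 m) (t : ℕ → ℝ) :
    DepOn (Finset.Icc 1 m) {z : ℕ → ℝ | ∀ x ∈ X, t x ≤ Real.sqrt 2 * Hw z x} := by
  intro ω ω' h hω x hx
  have h1 := hω x hx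
  rwa [Hw_dep (Finset.mem_Icc.mp (hX hx)).2 h] at h1

theorem aP_mono (m : ℕ) {B B' : ℝ} (h : B ≤ B') : aP m B ≤ aP m B' := by
  unfold aP
  refine measureReal_mono ?_
  intro ω hω j hj
  have h1 := hω j hj
  have h2 : ((j : ℝ) + 1) * B ≤ ((j : ℝ) + 1) * B' := mul_le_mul_of_nonneg_left h (by positivity)
  linarith

/-- the threshold -/
noncomputable def TT (m : ℕ) (A a B : ℝ) (x : ℕ) : ℝ :=
  Real.sqrt 2 * ((((4 * B * (1 + Real.log x)) +
    32 * (2 * (A + 1) * Real.log m) ^ (3 / 2 : ℝ) * (x : ℝ) ^ (1 / 4 : ℝ)) / Real.sqrt 2 +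
      (a * (1 + Real.log x) + 2 * a * x / Real.sqrt m)) + 1) +
    32 * (2 * (A + 1) * Real.log m) ^ (3 / 2 : ℝ) * (x : ℝ) ^ (1 / 4 : ℝ)

theorem step_a (h1 : S_IH) (h2 : S_Hcmp) (h3 : S_cltg) (h4 : S_helm) (h5 : S_H2) (h6 : S_gmax)
    (h7 : S_gcmp2) (m : ℕ) (A a B : ℝ) (X : Finset ℕ) (hm : 2 ≤ m) (hA : 0 ≤ A) (ha : 0 ≤ a)
    (hB : 0 ≤ B) (hl : 1 ≤ 2 * (A + 1) * Real.log m) (hX : X ⊆ Finset.Icc 1 m) :
    aP m B ≤ PP.real {ω | ∀ x ∈ X, -(TT m A a B x) ≤ Ch ω m x} + 82 * (m : ℝ) ^ (-A) +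
      4 * m * Real.exp (-a) := by
  have hm0 : (0 : ℝ) < m := by exact_mod_cast (show 0 < m by omega)
  have hs2 : 0 < Real.sqrt 2 := Real.sqrt_pos.mpr (by norm_num)
  set t : ℕ → ℝ := fun x => 4 * B * (1 + Real.log x) with ht
  set E : ℕ → ℝ := fun x => 32 * (2 * (A + 1) * Real.log m) ^ (3 / 2 : ℝ) * (x : ℝ) ^ (1 / 4 : ℝ) with hE
  set e : ℕ → ℝ := fun x => a * (1 + Real.log x) + 2 * a * x / Real.sqrt m with he
  have s1 : aP m B ≤ PP.real {ω | ∀ x ∈ X, -(t x) ≤ Hw ω x} := by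
    unfold aP
    refine measureReal_mono ?_
    intro ω hω x hx
    exact h1 m ω B hB hω x (hX hx)
  obtain ⟨K0, hK0⟩ := h3 m {z : ℕ → ℝ | ∀ x ∈ X, -(t x + E x) ≤ Real.sqrt 2 * Hw z x}
    ((m : ℝ) ^ (-A)) (F_closed X _) (F_dep hX _) (Real.rpow_pos_of_pos hm0 _)
  have s2 := h2 (max K0 1) m A X t (le_max_right _ _) hm hA hl hX
  have s3 := hK0 (max K0 1) (le_max_left _ _)
  have s2' : PP.real {ω | ∀ x ∈ X, -(t x) ≤ Hw ω x} ≤
      PP.real {ω | Wb (max K0 1) ω ∈ {z : ℕ → ℝ | ∀ x ∈ X, -(t x + E x) ≤ Real.sqrt 2 * Hw z x}} +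
        40 * (m : ℝ) ^ (-A) := s2
  have s4 : GA.real {z : ℕ → ℝ | ∀ x ∈ X, -(t x + E x) ≤ Real.sqrt 2 * Hw z x} =
      GA.real {z : ℕ → ℝ | ∀ x ∈ X, -((t x + E x) / Real.sqrt 2) ≤ Hw z x} := by
    congr 1
    ext z
    refine forall_congr' fun x => forall_congr' fun _ => ?_
    rw [← neg_div, div_le_iff₀ hs2, mul_comm (Hw z x)]
  have s5 := h4 m X (fun x => -((t x + E x) / Real.sqrt 2)) (by omega) hX
  have s6 : GA.real {z : ℕ → ℝ | ∀ x ∈ X, -((t x + E x) / Real.sqrt 2) ≤ Hz z m x} ≤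
      GA.real {z : ℕ → ℝ | ∀ x ∈ X, -((t x + E x) / Real.sqrt 2 + e x) ≤ Ch z m x} +
        4 * m * Real.exp (-a) := by
    have hsub : {z : ℕ → ℝ | ∀ x ∈ X, -((t x + E x) / Real.sqrt 2) ≤ Hz z m x} ⊆
        {z : ℕ → ℝ | ∀ x ∈ X, -((t x + E x) / Real.sqrt 2 + e x) ≤ Ch z m x} ∪
          {z | ∃ j ∈ Finset.Icc 1 m, a < |z j|} := by
      intro z hz
      by_cases hc : ∃ j ∈ Finset.Icc 1 m, a < |z j|
      · exact Or.inr hc
      · refine Or.inl fun x hx => ?_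
        have g1 := h5 m z a (by omega) ha (fun j hj => not_lt.mp fun h => hc ⟨j, hj, h⟩) x (hX hx)
        have g2 := hz x hx
        rw [abs_le] at g1
        have g3 : Hz z m x - Ch z m x ≤ e x := g1.2
        linarith
    refine (measureReal_mono hsub).trans ((measureReal_union_le _ _).trans ?_)
    have := h6 m a ha
    linarith
  have s7 := h7 m A X (fun x => (t x + E x) / Real.sqrt 2 + e x) hm hA hl hX
  have s8 : PP.real {ω | ∀ x ∈ X, -(Real.sqrt 2 * ((t x + E x) / Real.sqrt 2 + e x + 1) +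
      32 * (2 * (A + 1) * Real.log m) ^ (3 / 2 : ℝ) * (x : ℝ) ^ (1 / 4 : ℝ)) ≤ Ch ω m x} =
      PP.real {ω | ∀ x ∈ X, -(TT m A a B x) ≤ Ch ω m x} := rfl
  rw [s8] at s7
  rw [s4, s5] at s3
  linarith

/-- crude bound of the threshold -/
theorem TT_le (m x : ℕ) (A C : ℝ) (hA : 0 ≤ A) (hC : 0 < C) (hm : 1 ≤ m) (hx1 : 1 ≤ x) (hxm : x ≤ m)
    (hL : 1 ≤ Real.log m) :
    TT m A ((A + 1) * Real.log m + 2) (C * Real.log m) x ≤
      (8 * C + 256 * (A + 1) ^ 2 + 8 * (A + 3) + 4) * Real.log m ^ 2 *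
        ((x : ℝ) ^ (1 / 4 : ℝ) + x / Real.sqrt m) := by
  have hm0 : (0 : ℝ) < m := by exact_mod_cast (show 0 < m by omega)
  have hx1' : (1 : ℝ) ≤ x := by exact_mod_cast hx1
  have hlx : Real.log x ≤ Real.log m := Real.log_le_log (by linarith) (by exact_mod_cast hxm)
  have hlx0 : 0 ≤ Real.log x := Real.log_nonneg hx1'
  have hs2 : 0 < Real.sqrt 2 := Real.sqrt_pos.mpr (by norm_num)
  have hs22 : Real.sqrt 2 ≤ 2 := by
    rw [Real.sqrt_le_left (by norm_num)]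
    norm_num
  have hq1 : 1 ≤ (x : ℝ) ^ (1 / 4 : ℝ) := Real.one_le_rpow hx1' (by norm_num)
  have hs0 : 0 ≤ (x : ℝ) / Real.sqrt m := by positivity
  have hl3 : (2 * (A + 1) * Real.log m) ^ (3 / 2 : ℝ) ≤ 4 * (A + 1) ^ 2 * Real.log m ^ 2 := by
    have h1 : 1 ≤ 2 * (A + 1) * Real.log m := by nlinarith
    calc (2 * (A + 1) * Real.log m) ^ (3 / 2 : ℝ) ≤ (2 * (A + 1) * Real.log m) ^ (2 : ℝ) :=
          Real.rpow_le_rpow_of_exponent_le h1 (by norm_num)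
      _ = (2 * (A + 1) * Real.log m) ^ 2 := by
          rw [show (2 : ℝ) = ((2 : ℕ) : ℝ) by norm_num, Real.rpow_natCast]
      _ = 4 * (A + 1) ^ 2 * Real.log m ^ 2 := by ring
  unfold TT
  generalize (2 * (A + 1) * Real.log m) ^ (3 / 2 : ℝ) = l3 at hl3
  generalize hqe : (x : ℝ) ^ (1 / 4 : ℝ) = q at hq1 ⊢
  have hse : 2 * ((A + 1) * Real.log m + 2) * (x : ℝ) / Real.sqrt m =
    2 * ((A + 1) * Real.log m + 2) * ((x : ℝ) / Real.sqrt m) := by rw [mul_div_assoc]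
  rw [hse]
  generalize (x : ℝ) / Real.sqrt m = s at hs0 ⊢
  generalize Real.log m = L at hL hlx hl3 ⊢
  generalize Real.log (x : ℝ) = y at hlx hlx0 ⊢
  have e1 : Real.sqrt 2 * ((4 * (C * L) * (1 + y) + 32 * l3 * q) / Real.sqrt 2 +
      (((A + 1) * L + 2) * (1 + y) + 2 * ((A + 1) * L + 2) * s) + 1) + 32 * l3 * q =
      4 * (C * L) * (1 + y) + 64 * (l3 * q) +
        Real.sqrt 2 * (((A + 1) * L + 2) * (1 + y) + 2 * ((A + 1) * L + 2) * s + 1) := by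
    field_simp
    ring
  rw [e1]
  have hL2 : L ≤ L ^ 2 := by nlinarith
  have hL3 : 1 ≤ L ^ 2 := by nlinarith
  have f1 : 4 * (C * L) * (1 + y) ≤ 8 * C * L ^ 2 := by
    have : (1 + y) ≤ 2 * L := by linarith
    have h2 : 4 * (C * L) * (1 + y) ≤ 4 * (C * L) * (2 * L) := mul_le_mul_of_nonneg_left this (by positivity)
    linarith [show 4 * (C * L) * (2 * L) = 8 * C * L ^ 2 by ring]
  have f2 : l3 * q ≤ 4 * (A + 1) ^ 2 * L ^ 2 * q := mul_le_mul_of_nonneg_right hl3 (by linarith)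
  have f3 : (A + 1) * L + 2 ≤ (A + 3) * L := by nlinarith
  have f4 : ((A + 1) * L + 2) * (1 + y) ≤ (A + 3) * L * (2 * L) :=
    mul_le_mul f3 (by linarith) (by linarith) (by positivity)
  have f5 : 2 * ((A + 1) * L + 2) * s ≤ 2 * ((A + 3) * L) * s :=
    mul_le_mul_of_nonneg_right (by linarith) hs0
  have f6 : 0 ≤ ((A + 1) * L + 2) * (1 + y) + 2 * ((A + 1) * L + 2) * s + 1 := by positivity
  have f7 : Real.sqrt 2 * (((A + 1) * L + 2) * (1 + y) + 2 * ((A + 1) * L + 2) * s + 1) ≤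
      2 * (((A + 1) * L + 2) * (1 + y) + 2 * ((A + 1) * L + 2) * s + 1) :=
    mul_le_mul_of_nonneg_right hs22 f6
  have f8 : 2 * ((A + 3) * L) * s ≤ 2 * (A + 3) * L ^ 2 * s := by
    have h3 : 2 * (A + 3) * s * L ≤ 2 * (A + 3) * s * L ^ 2 :=
      mul_le_mul_of_nonneg_left hL2 (by positivity)
    linarith
  have g1 : 8 * C * L ^ 2 ≤ 8 * C * L ^ 2 * q := le_mul_of_one_le_right (by positivity) hq1
  have g2 : 2 * (2 * (A + 3) * L ^ 2) ≤ 2 * (2 * (A + 3) * L ^ 2) * q :=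
    le_mul_of_one_le_right (by positivity) hq1
  have g3 : 2 * L ^ 2 ≤ 2 * L ^ 2 * q := le_mul_of_one_le_right (by positivity) hq1
  have g4 : 0 ≤ C * L ^ 2 * s := by positivity
  have g5 : 0 ≤ (A + 1) ^ 2 * L ^ 2 * s := by positivity
  have g6 : 0 ≤ (A + 3) * L ^ 2 * s := by positivity
  have g7 : 0 ≤ L ^ 2 * s := by positivity
  have g8 : 0 ≤ (A + 3) * L ^ 2 * q := by positivity
  have g9 : 0 ≤ L ^ 2 * q := by positivity
  have e2 : (8 * C + 256 * (A + 1) ^ 2 + 8 * (A + 3) + 4) * L ^ 2 * (q + s) =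
      8 * C * L ^ 2 * q + 256 * ((A + 1) ^ 2 * L ^ 2 * q) + 8 * ((A + 3) * L ^ 2 * q) + 4 * (L ^ 2 * q) +
      8 * (C * L ^ 2 * s) + 256 * ((A + 1) ^ 2 * L ^ 2 * s) + 8 * ((A + 3) * L ^ 2 * s) + 4 * (L ^ 2 * s) := by
    ring
  rw [e2]
  nlinarith

/-- the threshold is below `δ √x` in the middle range -/
theorem TT_small (m x : ℕ) (A C η δ : ℝ) (hA : 0 ≤ A) (hC : 0 < C) (hη : 0 < η) (hm : 1 ≤ m)
    (hxm : x ≤ m) (hL : 1 ≤ Real.log m) (h1 : (m : ℝ) ^ η ≤ x) (h2 : (x : ℝ) ≤ (m : ℝ) ^ (1 - η))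
    (hD : 2 * (8 * C + 256 * (A + 1) ^ 2 + 8 * (A + 3) + 4) * Real.log m ^ 2 ≤ δ * (m : ℝ) ^ (η / 4)) :
    TT m A ((A + 1) * Real.log m + 2) (C * Real.log m) x ≤ δ * Real.sqrt x := by
  have hm1 : (1 : ℝ) ≤ m := by exact_mod_cast hm
  have hm0 : (0 : ℝ) < m := by linarith
  have hx1' : (1 : ℝ) ≤ x := (Real.one_le_rpow hm1 hη.le).trans h1
  have hx1 : 1 ≤ x := by exact_mod_cast hx1'
  have hx0 : (0 : ℝ) < x := by linarith
  refine (TT_le m x A C hA hC hm hx1 hxm hL).trans ?_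
  have hr0 : 0 < (m : ℝ) ^ (η / 4) := Real.rpow_pos_of_pos hm0 _
  -- the fourth root
  have k1 : (m : ℝ) ^ (η / 4) * (x : ℝ) ^ (1 / 4 : ℝ) ≤ Real.sqrt x := by
    have e1 : (m : ℝ) ^ (η / 4) ≤ (x : ℝ) ^ (1 / 4 : ℝ) := by
      have := Real.rpow_le_rpow (Real.rpow_nonneg hm0.le _) h1 (show (0 : ℝ) ≤ 1 / 4 by norm_num)
      rw [← Real.rpow_mul hm0.le] at this
      rwa [show η / 4 = η * (1 / 4) by ring]
    have e2 : (x : ℝ) ^ (1 / 4 : ℝ) * (x : ℝ) ^ (1 / 4 : ℝ) = Real.sqrt x := by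
      rw [← Real.rpow_add hx0, Real.sqrt_eq_rpow]
      norm_num
    calc (m : ℝ) ^ (η / 4) * (x : ℝ) ^ (1 / 4 : ℝ) ≤ (x : ℝ) ^ (1 / 4 : ℝ) * (x : ℝ) ^ (1 / 4 : ℝ) :=
          mul_le_mul_of_nonneg_right e1 (by positivity)
      _ = Real.sqrt x := e2
  have k2 : (m : ℝ) ^ (η / 4) * ((x : ℝ) / Real.sqrt m) ≤ Real.sqrt x := by
    have hsm : 0 < Real.sqrt m := Real.sqrt_pos.mpr hm0
    have e1 : (m : ℝ) ^ (η / 4) ≤ (m : ℝ) ^ (η / 2) :=
      Real.rpow_le_rpow_of_exponent_le hm1 (by linarith)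
    have e2 : Real.sqrt x ≤ (m : ℝ) ^ ((1 - η) / 2) := by
      rw [Real.sqrt_eq_rpow]
      have := Real.rpow_le_rpow hx0.le h2 (show (0 : ℝ) ≤ 1 / 2 by norm_num)
      rw [← Real.rpow_mul hm0.le] at this
      rwa [show (1 - η) / 2 = (1 - η) * (1 / 2) by ring]
    have e3 : (m : ℝ) ^ (η / 2) * (m : ℝ) ^ ((1 - η) / 2) = Real.sqrt m := by
      rw [← Real.rpow_add hm0, Real.sqrt_eq_rpow]
      congr 1
      ring
    have e4 : (m : ℝ) ^ (η / 4) * Real.sqrt x ≤ Real.sqrt m := by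
      rw [← e3]
      exact mul_le_mul e1 e2 (Real.sqrt_nonneg _) (Real.rpow_nonneg hm0.le _)
    rw [← mul_div_assoc, div_le_iff₀ hsm]
    calc (m : ℝ) ^ (η / 4) * (x : ℝ) = Real.sqrt x * ((m : ℝ) ^ (η / 4) * Real.sqrt x) := by
          rw [mul_comm (Real.sqrt x), mul_assoc, Real.mul_self_sqrt hx0.le]
      _ ≤ Real.sqrt x * Real.sqrt m := mul_le_mul_of_nonneg_left e4 (Real.sqrt_nonneg _)
  generalize (x : ℝ) ^ (1 / 4 : ℝ) = q at k1 ⊢
  generalize (x : ℝ) / Real.sqrt m = s at k2 ⊢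
  generalize (m : ℝ) ^ (η / 4) = r at hr0 k1 k2 hD ⊢
  set D : ℝ := (8 * C + 256 * (A + 1) ^ 2 + 8 * (A + 3) + 4) * Real.log m ^ 2 with hDd
  have hD0 : 0 ≤ D := by positivity
  have hD' : 2 * D ≤ δ * r := by
    rw [hDd]
    linarith
  have k3 : r * (D * (q + s)) ≤ r * (δ * Real.sqrt x) := by
    calc r * (D * (q + s)) = D * (r * q + r * s) := by ring
      _ ≤ D * (Real.sqrt x + Real.sqrt x) := mul_le_mul_of_nonneg_left (add_le_add k1 k2) hD0
      _ = 2 * D * Real.sqrt x := by ring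
      _ ≤ δ * r * Real.sqrt x := mul_le_mul_of_nonneg_right hD' (Real.sqrt_nonneg _)
      _ = r * (δ * Real.sqrt x) := by ring
  exact le_of_mul_le_mul_left k3 hr0

theorem Ch_eq (ω : ℕ → ℝ) (L x : ℕ) :
    Ch ω L x = ∑ j ∈ Finset.Icc 1 L, ((min j x : ℕ) : ℝ) * (ω j / (j : ℝ)) := rfl

theorem Ch_meas (L x : ℕ) : Measurable (fun ω : ℕ → ℝ => Ch ω L x) := by
  simp only [Ch_eq]
  refine Finset.measurable_fun_sum _ fun j _ => ?_
  exact ((measurable_pi_apply j).div_const _).const_mul _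

theorem set_meas (L : ℕ) (X : Finset ℕ) : MeasurableSet {ω : ℕ → ℝ | ∀ x ∈ X, 0 ≤ Ch ω L x} := by
  have h : {ω : ℕ → ℝ | ∀ x ∈ X, 0 ≤ Ch ω L x} = ⋂ x ∈ X, {ω : ℕ → ℝ | 0 ≤ Ch ω L x} := by
    ext ω
    simp
  rw [h]
  exact Finset.measurableSet_biInter X fun x _ => measurableSet_le measurable_const (Ch_meas L x)

theorem set_dep (L : ℕ) (X : Finset ℕ) :
    DepOn (Finset.Icc 1 L) {ω : ℕ → ℝ | ∀ x ∈ X, 0 ≤ Ch ω L x} := by
  intro ω ω' h hω x hx
  have h1 : Ch ω' L x = Ch ω L x := by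
    rw [Ch_eq, Ch_eq]
    exact Finset.sum_congr rfl fun j hj => by rw [h j hj]
  rw [h1]
  exact hω x hx

theorem set_up (L : ℕ) (X : Finset ℕ) : IsUpperSet {ω : ℕ → ℝ | ∀ x ∈ X, 0 ≤ Ch ω L x} := by
  intro ω ω' h hω x hx
  refine (hω x hx).trans ?_
  rw [Ch_eq, Ch_eq]
  exact Finset.sum_le_sum fun j _ => mul_le_mul_of_nonneg_left
    (div_le_div_of_nonneg_right (h j) (Nat.cast_nonneg _)) (Nat.cast_nonneg _)

/-- Harris inequality for three ranges -/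
theorem harris3 (h : S_harrisN) (n x0 b : ℕ) :
    PP.real {ω | ∀ x ∈ Finset.Icc 1 x0, 0 ≤ Ch ω n x} *
      PP.real {ω | ∀ x ∈ Finset.Icc x0 b, 0 ≤ Ch ω n x} *
      PP.real {ω | ∀ x ∈ Finset.Icc b n, 0 ≤ Ch ω n x} ≤ uu n := by
  have h := h (Finset.Icc 1 n) (Finset.range 3)
    (fun i => {ω | ∀ x ∈ (if i = 0 then Finset.Icc 1 x0 else if i = 1 then Finset.Icc x0 b else Finset.Icc b n),
      0 ≤ Ch ω n x})
    (fun i _ => set_meas n _) (fun i _ => set_dep n _) (fun i _ => set_up n _)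
  rw [Finset.prod_range_succ, Finset.prod_range_succ, Finset.prod_range_one] at h
  rw [if_pos rfl, if_neg one_ne_zero, if_pos rfl, if_neg (by norm_num), if_neg (by norm_num)] at h
  refine h.trans ?_
  unfold uu
  refine measureReal_mono ?_
  intro ω hω x hx
  have hx' := Finset.mem_Icc.mp hx
  rw [Set.mem_iInter₂] at hω
  rcases le_total x x0 with h1 | h1
  · have h2 := hω 0 (Finset.mem_range.mpr (by norm_num)) x
    rw [if_pos rfl] at h2
    exact h2 (Finset.mem_Icc.mpr ⟨hx'.1, h1⟩)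
  · rcases le_total x b with h3 | h3
    · have h2 := hω 1 (Finset.mem_range.mpr (by norm_num)) x
      rw [if_neg one_ne_zero, if_pos rfl] at h2
      exact h2 (Finset.mem_Icc.mpr ⟨h1, h3⟩)
    · have h2 := hω 2 (Finset.mem_range.mpr (by norm_num)) x
      rw [if_neg (by norm_num), if_neg (by norm_num)] at h2
      exact h2 (Finset.mem_Icc.mpr ⟨h3, hx'.2⟩)

/-- the final numerical step -/
theorem fin_num (L θ ε e P Q u c κ W Z a : ℝ) (hL : 0 < L) (hε : 0 < ε) (he : 0 < e)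
    (heε : 2 * e + e * θ ≤ ε / 2) (hc : 0 < c) (hP : 0 ≤ P) (hu : 0 < u)
    (hu1 : (θ - e) * L ≤ -Real.log u)
    (hPQ : P ^ (1 + e) * Real.exp (-(e / 4 * (1 + L))) ≤ Q)
    (hW : Real.exp (-(κ * Real.log 2) - e / 4 * L) ≤ W)
    (hZ : Real.exp (-(κ * Real.log 2) - e / 4 * L) ≤ Z)
    (hQ : c * W * Q * (c * Z) ≤ u)
    (hl2 : -(2 * Real.log c) + 2 * κ * Real.log 2 + e / 4 ≤ e / 4 * L)
    (ha : a ≤ P + 83 * Real.exp (-((|θ| + 1) * L)))
    (h166 : Real.log 166 ≤ L) (h2 : Real.log 2 ≤ ε / 2 * L) :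
    a ≤ Real.exp ((-θ + ε) * L) := by
  have hkey : P ≤ Real.exp ((-θ + ε / 2) * L) := by
    by_contra hcon
    have hcon := not_le.mp hcon
    have hP0 : 0 < P := (Real.exp_pos _).trans hcon
    have h3 : Real.exp ((-θ + ε / 2) * L) ^ (1 + e) < P ^ (1 + e) :=
      Real.rpow_lt_rpow (Real.exp_pos _).le hcon (by linarith)
    rw [← Real.exp_mul] at h3
    have hQ0 : 0 ≤ Q := (mul_nonneg (Real.rpow_nonneg hP _) (Real.exp_pos _).le).trans hPQ
    have h4 : c * Real.exp (-(κ * Real.log 2) - e / 4 * L) *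
        (Real.exp ((-θ + ε / 2) * L * (1 + e)) * Real.exp (-(e / 4 * (1 + L)))) *
        (c * Real.exp (-(κ * Real.log 2) - e / 4 * L)) < u := by
      refine lt_of_lt_of_le ?_ hQ
      have h5 : Real.exp ((-θ + ε / 2) * L * (1 + e)) * Real.exp (-(e / 4 * (1 + L))) < Q :=
        lt_of_lt_of_le (mul_lt_mul_of_pos_right h3 (Real.exp_pos _)) hPQ
      have h6 : c * Real.exp (-(κ * Real.log 2) - e / 4 * L) *
          (Real.exp ((-θ + ε / 2) * L * (1 + e)) * Real.exp (-(e / 4 * (1 + L)))) < c * W * Q := by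
        calc _ < c * Real.exp (-(κ * Real.log 2) - e / 4 * L) * Q :=
              mul_lt_mul_of_pos_left h5 (by positivity)
          _ ≤ c * W * Q := mul_le_mul_of_nonneg_right (mul_le_mul_of_nonneg_left hW hc.le) hQ0
      have hcZ : c * Real.exp (-(κ * Real.log 2) - e / 4 * L) ≤ c * Z := mul_le_mul_of_nonneg_left hZ hc.le
      calc _ < c * W * Q * (c * Real.exp (-(κ * Real.log 2) - e / 4 * L)) :=
            mul_lt_mul_of_pos_right h6 (by positivity)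
        _ ≤ c * W * Q * (c * Z) := by
            refine mul_le_mul_of_nonneg_left hcZ ?_
            refine mul_nonneg (mul_nonneg hc.le ?_) hQ0
            exact (Real.exp_pos _).le.trans hW
    have h7 : c * Real.exp (-(κ * Real.log 2) - e / 4 * L) *
        (Real.exp ((-θ + ε / 2) * L * (1 + e)) * Real.exp (-(e / 4 * (1 + L)))) *
        (c * Real.exp (-(κ * Real.log 2) - e / 4 * L)) =
        Real.exp ((Real.log c + (-(κ * Real.log 2) - e / 4 * L)) +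
          ((-θ + ε / 2) * L * (1 + e) + -(e / 4 * (1 + L))) +
          (Real.log c + (-(κ * Real.log 2) - e / 4 * L))) := by
      rw [Real.exp_add, Real.exp_add, Real.exp_add (Real.log c), Real.exp_log hc, Real.exp_add]
    rw [h7] at h4
    have h8 := (Real.lt_log_iff_exp_lt hu).mpr h4
    have h9 : (2 * e + e * θ) * L ≤ ε / 2 * L := mul_le_mul_of_nonneg_right heε hL.le
    have h10 : 0 ≤ ε / 2 * L * e := by positivity
    nlinarith
  have hθ : -((|θ| + 1) * L) ≤ -θ * L - L := by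
    have : θ * L ≤ |θ| * L := mul_le_mul_of_nonneg_right (le_abs_self θ) hL.le
    linarith
  have h11 : 166 * Real.exp (-((|θ| + 1) * L)) ≤ Real.exp ((-θ + ε) * L) := by
    rw [show (166 : ℝ) = Real.exp (Real.log 166) by rw [Real.exp_log (by norm_num)], ← Real.exp_add]
    refine Real.exp_le_exp.mpr ?_
    have : 0 ≤ ε * L := by positivity
    linarith
  have h12 : 2 * Real.exp ((-θ + ε / 2) * L) ≤ Real.exp ((-θ + ε) * L) := by
    rw [show (2 : ℝ) * Real.exp ((-θ + ε / 2) * L) = Real.exp (Real.log 2 + (-θ + ε / 2) * L) by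
      rw [Real.exp_add, Real.exp_log (by norm_num)]]
    refine Real.exp_le_exp.mpr ?_
    linarith
  linarith

theorem Y_low (m : ℕ) (y η κ e : ℝ) (hm : 1 ≤ m) (hκ : 0 < κ) (hη : κ * η ≤ e / 4)
    (hy : (m : ℝ) ^ (-η) / 2 ≤ y) :
    Real.exp (-(κ * Real.log 2) - e / 4 * Real.log m) ≤ y ^ κ := by
  have hm0 : (0 : ℝ) < m := by exact_mod_cast (show 0 < m by omega)
  have hm1 : (1 : ℝ) ≤ m := by exact_mod_cast hm
  have h0 : 0 < (m : ℝ) ^ (-η) / 2 := by positivity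
  have hy0 : 0 < y := h0.trans_le hy
  rw [Real.rpow_def_of_pos hy0]
  refine Real.exp_le_exp.mpr ?_
  have h2 := Real.log_le_log h0 hy
  rw [Real.log_div (Real.rpow_pos_of_pos hm0 _).ne' (by norm_num), Real.log_rpow hm0] at h2
  have h3 := Real.log_nonneg hm1
  have h4 := mul_le_mul_of_nonneg_left h2 hκ.le
  have h5 : κ * η * Real.log m ≤ e / 4 * Real.log m := mul_le_mul_of_nonneg_right hη h3
  linarith

theorem thr_large (D δ η : ℝ) (hD : 0 < D) (hδ : 0 < δ) (hη : 0 < η) :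
    ∀ᶠ m : ℕ in atTop, 2 * D * Real.log m ^ 2 ≤ δ * (m : ℝ) ^ (η / 4) := by
  have h1 := (isLittleO_log_rpow_rpow_atTop 2 (show 0 < η / 4 by positivity)).bound
    (show 0 < δ / (2 * D) by positivity)
  have h2 := tendsto_natCast_atTop_atTop (R := ℝ) |>.eventually h1
  filter_upwards [h2, eventually_ge_atTop 1] with n hn hn1
  have hn1' : (1 : ℝ) ≤ n := by exact_mod_cast hn1
  have hl : 0 ≤ Real.log n := Real.log_nonneg hn1'
  rw [Real.norm_of_nonneg (by positivity), Real.norm_of_nonneg (by positivity)] at hn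
  have h3 : Real.log n ^ (2 : ℝ) = Real.log n ^ 2 := by
    rw [show (2 : ℝ) = ((2 : ℕ) : ℝ) by norm_num, Real.rpow_natCast]
  rw [h3] at hn
  calc 2 * D * Real.log n ^ 2 ≤ 2 * D * (δ / (2 * D) * (n : ℝ) ^ (η / 4)) :=
        mul_le_mul_of_nonneg_left hn (by positivity)
    _ = δ * (n : ℝ) ^ (η / 4) := by field_simp

theorem main_ev (h1 : S_IH) (h2 : S_Hcmp) (h3 : S_cltg) (h4 : S_helm) (h5 : S_H2) (h6 : S_gmax)
    (h7 : S_gcmp2) (h8 : S_shiftC) (h9 : S_step) (h10 : S_harrisN) (θ : ℝ) (hθ : IsTheta θ)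
    (ε C : ℝ) (hε : 0 < ε) (hC : 0 < C) :
    ∀ᶠ m : ℕ in atTop, aP m (C * Real.log m) ≤ (m : ℝ) ^ (-θ + ε) := by
  obtain ⟨c, hc, κ, hκ, -, -, st3, st4, st5⟩ := h9
  set e : ℝ := min 1 (ε / (2 * (|θ| + 2))) with he
  have hθa : 0 ≤ |θ| := abs_nonneg θ
  have he0 : 0 < e := lt_min one_pos (by positivity)
  have he1 : e ≤ 1 := min_le_left _ _
  have heε : 2 * e + e * θ ≤ ε / 2 := by
    calc 2 * e + e * θ ≤ e * (|θ| + 2) := by nlinarith [le_abs_self θ]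
      _ ≤ ε / (2 * (|θ| + 2)) * (|θ| + 2) := mul_le_mul_of_nonneg_right (min_le_right _ _) (by positivity)
      _ = ε / 2 := by field_simp
  set η : ℝ := min (1 / 4) (e / (4 * κ)) with hη
  have hη0 : 0 < η := lt_min (by norm_num) (by positivity)
  have hη1 : η ≤ 1 / 4 := min_le_left _ _
  have hηκ : κ * η ≤ e / 4 := by
    calc κ * η ≤ κ * (e / (4 * κ)) := mul_le_mul_of_nonneg_left (min_le_right _ _) hκ.le
      _ = e / 4 := by field_simp
  set A : ℝ := |θ| + 1 with hA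
  have hA0 : 0 ≤ A := by positivity
  have hlog : Tendsto (fun n : ℕ => Real.log n) atTop atTop :=
    Real.tendsto_log_atTop.comp tendsto_natCast_atTop_atTop
  have t1 := hlog.eventually_ge_atTop 1
  have t2 := hlog.eventually_ge_atTop (Real.log 166)
  have t3 := hlog.eventually_ge_atTop (Real.log 2 / (ε / 2))
  have t4 := hlog.eventually_ge_atTop ((-(2 * Real.log c) + 2 * κ * Real.log 2 + e / 4) / (e / 4))
  have t5 := thr_large (8 * C + 256 * (A + 1) ^ 2 + 8 * (A + 3) + 4) (e / 4) η (by positivity)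
    (by positivity) hη0
  have t6 := (Metric.tendsto_nhds.mp hθ) e he0
  filter_upwards [t1, t2, t3, t4, t5, t6, eventually_ge_atTop 4] with m t1 t2 t3 t4 t5 t6 hm
  rw [div_le_iff₀ (by positivity)] at t3 t4
  have hm1 : (1 : ℝ) ≤ m := by exact_mod_cast (show 1 ≤ m by omega)
  have hm4 : (4 : ℝ) ≤ m := by exact_mod_cast hm
  have hm0 : (0 : ℝ) < m := by linarith
  set L : ℝ := Real.log m with hL
  have hL0 : 0 < L := by linarith
  have hrp : ∀ s : ℝ, (m : ℝ) ^ s = Real.exp (s * L) := by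
    intro s
    rw [Real.rpow_def_of_pos hm0, hL]
    congr 1
    ring
  -- the range
  set x0 : ℕ := ⌈(m : ℝ) ^ η⌉₊ with hx0d
  set b : ℕ := ⌊(m : ℝ) ^ (1 - η)⌋₊ with hbd
  have hmη : 1 ≤ (m : ℝ) ^ η := Real.one_le_rpow hm1 hη0.le
  have hmη' : 1 ≤ (m : ℝ) ^ (1 - η) := Real.one_le_rpow hm1 (by linarith)
  have x1 : (m : ℝ) ^ η ≤ x0 := Nat.le_ceil _
  have x2 : (x0 : ℝ) ≤ 2 * (m : ℝ) ^ η := by
    have := Nat.ceil_lt_add_one (show 0 ≤ (m : ℝ) ^ η by positivity)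
    linarith
  have x3 : 1 ≤ x0 := by
    have : (1 : ℝ) ≤ x0 := hmη.trans x1
    exact_mod_cast this
  have x4 : x0 ≤ m := by
    have y1 : (m : ℝ) ^ η ≤ (m : ℝ) ^ (1 / 2 : ℝ) := Real.rpow_le_rpow_of_exponent_le hm1 (by linarith)
    rw [← Real.sqrt_eq_rpow] at y1
    have y2 := Real.sq_sqrt hm0.le
    have y3 : 2 ≤ Real.sqrt m := by
      rw [show (2 : ℝ) = Real.sqrt 4 by rw [show (4 : ℝ) = 2 ^ 2 by norm_num]; exact (Real.sqrt_sq (by norm_num)).symm]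
      exact Real.sqrt_le_sqrt hm4
    have y4 : (x0 : ℝ) ≤ m := by nlinarith
    exact_mod_cast y4
  have b1 : 1 ≤ b := by
    rw [hbd]
    exact Nat.le_floor (by rw [Nat.cast_one]; exact hmη')
  have b2 : (b : ℝ) ≤ (m : ℝ) ^ (1 - η) := Nat.floor_le (by positivity)
  have b3 : (m : ℝ) ^ (1 - η) ≤ 2 * b := by
    have g1 := Nat.lt_floor_add_one ((m : ℝ) ^ (1 - η))
    rw [← hbd] at g1
    have g2 : (1 : ℝ) ≤ b := by exact_mod_cast b1
    linarith
  have b4 : b ≤ m := by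
    have g1 : (b : ℝ) ≤ m := b2.trans (by
      calc (m : ℝ) ^ (1 - η) ≤ (m : ℝ) ^ (1 : ℝ) := Real.rpow_le_rpow_of_exponent_le hm1 (by linarith)
        _ = m := Real.rpow_one _)
    exact_mod_cast g1
  have hX : Finset.Icc x0 b ⊆ Finset.Icc 1 m := Finset.Icc_subset_Icc x3 b4
  have hx0R : (0 : ℝ) < x0 := by exact_mod_cast (show 0 < x0 by omega)
  have hninv : (m : ℝ) ^ (-η) = ((m : ℝ) ^ η)⁻¹ := Real.rpow_neg hm0.le _
  -- the two crude factors
  have w1 : (m : ℝ) ^ (-η) / 2 ≤ ((1 : ℕ) : ℝ) / (x0 : ℝ) := by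
    rw [hninv, Nat.cast_one, le_div_iff₀ hx0R]
    calc ((m : ℝ) ^ η)⁻¹ / 2 * x0 ≤ ((m : ℝ) ^ η)⁻¹ / 2 * (2 * (m : ℝ) ^ η) :=
          mul_le_mul_of_nonneg_left x2 (by positivity)
      _ = 1 := by field_simp
  have z1 : (m : ℝ) ^ (-η) / 2 ≤ (b : ℝ) / (m : ℝ) := by
    rw [le_div_iff₀ hm0]
    have g1 : (m : ℝ) ^ (-η) * m = (m : ℝ) ^ (1 - η) := by
      rw [show (1 - η : ℝ) = -η + 1 by ring, Real.rpow_add hm0, Real.rpow_one]
    calc (m : ℝ) ^ (-η) / 2 * m = (m : ℝ) ^ (-η) * m / 2 := by ring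
      _ ≤ b := by rw [g1]; linarith
  have w2 := Y_low m _ η κ e (by omega) hκ hηκ w1
  have z2 := Y_low m _ η κ e (by omega) hκ hηκ z1
  have w3 := st3 1 x0 m le_rfl x3 x4
  have z3 := st3 b m m b1 b4 le_rfl
  have hu0 : 0 < uu m := lt_of_lt_of_le (by positivity) (st4 m (by omega))
  rw [Real.dist_eq, abs_lt] at t6
  have u2 : (θ - e) * L ≤ -Real.log (uu m) := by
    have : θ - e ≤ -Real.log (uu m) / L := by linarith [t6.1]
    rwa [le_div_iff₀ hL0] at this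
  -- the shift
  have hsh := h8 e (e / 4) m (Finset.Icc x0 b) (fun x => -(e / 4 * Real.sqrt x)) he0 he1 (by positivity)
    le_rfl (by omega) hX
  have hee : -((4 / e) * ((e / 4) ^ 2 * (1 + Real.log m))) = -(e / 4 * (1 + L)) := by
    rw [hL]
    field_simp
  rw [hee] at hsh
  have hshe : {ω : ℕ → ℝ | ∀ x ∈ Finset.Icc x0 b, -(e / 4 * Real.sqrt x) + e / 4 * Real.sqrt x ≤ Ch ω m x} =
      {ω : ℕ → ℝ | ∀ x ∈ Finset.Icc x0 b, 0 ≤ Ch ω m x} := by
    ext ω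
    refine forall_congr' fun x => forall_congr' fun _ => ?_
    rw [neg_add_cancel]
  rw [hshe] at hsh
  have hH := harris3 h10 m x0 b
  -- the chain
  have hsa := step_a h1 h2 h3 h4 h5 h6 h7 m A ((A + 1) * L + 2) (C * L) (Finset.Icc x0 b) (by omega) hA0
    (by positivity) (by positivity) (by nlinarith) hX
  have hmono : PP.real {ω | ∀ x ∈ Finset.Icc x0 b, -(TT m A ((A + 1) * L + 2) (C * L) x) ≤ Ch ω m x} ≤
      PP.real {ω | ∀ x ∈ Finset.Icc x0 b, -(e / 4 * Real.sqrt x) ≤ Ch ω m x} := by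
    refine measureReal_mono ?_
    intro ω hω x hx
    have hx' := Finset.mem_Icc.mp hx
    have g1 := TT_small m x A C η (e / 4) hA0 hC hη0 (by omega) (hx'.2.trans b4) t1
      (x1.trans (by exact_mod_cast hx'.1)) (le_trans (by exact_mod_cast hx'.2) b2) t5
    have g2 := hω x hx
    linarith
  have hexp : 4 * (m : ℝ) * Real.exp (-((A + 1) * L + 2)) ≤ Real.exp (-(A * L)) := by
    have g1 : (m : ℝ) = Real.exp L := by rw [hL, Real.exp_log hm0]
    have g2 : 4 * Real.exp (-2) ≤ 1 := by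
      have g3 := Real.exp_one_gt_d9
      have g4 : (4 : ℝ) ≤ Real.exp 2 := by
        calc (4 : ℝ) ≤ (2.7182818283 : ℝ) ^ 2 := by norm_num
          _ ≤ Real.exp 1 ^ 2 := by gcongr
          _ = Real.exp 2 := by rw [← Real.exp_nat_mul]; norm_num
      rw [Real.exp_neg]
      have g5 : 0 < Real.exp 2 := Real.exp_pos _
      rw [← div_eq_mul_inv, div_le_one g5]
      exact g4
    have g6 : Real.exp (-((A + 1) * L + 2)) = Real.exp (-(A * L)) * Real.exp (-L) * Real.exp (-2) := by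
      rw [← Real.exp_add, ← Real.exp_add]
      congr 1
      ring
    rw [g6]
    have g7 : (m : ℝ) * Real.exp (-L) = 1 := by
      rw [g1, ← Real.exp_add, add_neg_cancel, Real.exp_zero]
    calc 4 * (m : ℝ) * (Real.exp (-(A * L)) * Real.exp (-L) * Real.exp (-2)) =
        Real.exp (-(A * L)) * ((m : ℝ) * Real.exp (-L)) * (4 * Real.exp (-2)) := by ring
      _ ≤ Real.exp (-(A * L)) * ((m : ℝ) * Real.exp (-L)) * 1 :=
          mul_le_mul_of_nonneg_left g2 (by positivity)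
      _ = Real.exp (-(A * L)) := by rw [g7, mul_one, mul_one]
  have hmA : (m : ℝ) ^ (-A) = Real.exp (-(A * L)) := by
    rw [hrp]
    congr 1
    ring
  rw [hmA] at hsa
  rw [hrp]
  have hc1 : 0 ≤ PP.real {ω | ∀ x ∈ Finset.Icc x0 b, 0 ≤ Ch ω m x} := measureReal_nonneg
  refine fin_num L θ ε e (PP.real {ω | ∀ x ∈ Finset.Icc x0 b, -(e / 4 * Real.sqrt x) ≤ Ch ω m x})
    (PP.real {ω | ∀ x ∈ Finset.Icc x0 b, 0 ≤ Ch ω m x}) (uu m) c κ ((((1 : ℕ) : ℝ) / (x0 : ℝ)) ^ κ)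
    (((b : ℝ) / (m : ℝ)) ^ κ) _ hL0 hε he0 heε hc measureReal_nonneg hu0 u2 hsh w2 z2 ?_ (by linarith) ?_ t2
    (by linarith)
  · refine le_trans ?_ hH
    refine mul_le_mul (mul_le_mul_of_nonneg_right w3 hc1) z3 (by positivity) ?_
    exact mul_nonneg measureReal_nonneg hc1
  · linarith

theorem gp_chain (h1 : S_IH) (h2 : S_Hcmp) (h3 : S_cltg) (h4 : S_helm) (h5 : S_H2) (h6 : S_gmax)
    (h7 : S_gcmp2) (h8 : S_shiftC) (h9 : S_step) (h10 : S_harrisN) : Pool.Agent.H174.GP.S_chain := by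
  intro θ hθ ε C hε hC
  obtain ⟨m0, hm0⟩ := eventually_atTop.mp
    (main_ev h1 h2 h3 h4 h5 h6 h7 h8 h9 h10 θ hθ ε (C / ε) hε (by positivity))
  have ht : Tendsto (fun n : ℕ => (n : ℝ) ^ ε) atTop atTop :=
    (tendsto_rpow_atTop hε).comp tendsto_natCast_atTop_atTop
  obtain ⟨n0, hn0⟩ := eventually_atTop.mp ((ht.eventually_ge_atTop (m0 : ℝ)).and (eventually_ge_atTop 1))
  refine ⟨n0, fun n hn m hnm hmn => ?_⟩
  obtain ⟨k1, k2⟩ := hn0 n hn
  have hn1 : (1 : ℝ) ≤ n := by exact_mod_cast k2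
  have hm : m0 ≤ m := by exact_mod_cast k1.trans hnm
  refine le_trans (aP_mono m ?_) (hm0 m hm)
  have hp : 0 < (n : ℝ) ^ ε := Real.rpow_pos_of_pos (by linarith) _
  have k3 := Real.log_le_log hp hnm
  rw [Real.log_rpow (by linarith)] at k3
  calc C * Real.log n = C / ε * (ε * Real.log n) := by field_simp
    _ ≤ C / ε * Real.log m := mul_le_mul_of_nonneg_left k3 (by positivity)

end Pool.Agent.H154.GP174
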